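import Pool.Agent.P8H18.RR.StmZ

/-!
# The moduli `10 ^ j` have no exceptional zeros

The classical region for all characters modulo powers of ten, at all large scales. The proof of `core` is
that of `Pool.Agent.P8H13.GK.region`; the real zeros are excluded by `no_real`: a real character modulo `10 ^ j` is
induced by one modulo `1000`.
-/

set_option autoImplicit false

namespace Pool.Agent.P8H73.RR

open Complex Filter Topology Set Metric
open Pool.Agent.Y755.FK Pool.Agent.Y960.FK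
open scoped ArithmeticFunction.vonMangoldt

/-- `n = 1 mod 1000` is a square modulo all powers of ten -/
theorem sq_mod (n : ℤ) (hn : (1000 : ℤ) ∣ n - 1) (j : ℕ) :
    ∃ y : ℤ, IsCoprime y 10 ∧ (10 : ℤ) ^ (j + 3) ∣ y ^ 2 - n := by
  induction j with
  | zero =>
    refine ⟨1, isCoprime_one_left, ?_⟩
    obtain ⟨k, hk⟩ := hn
    exact ⟨-k, by linear_combination -hk⟩
  | succ j ih =>
    obtain ⟨y, hy, m, hm⟩ := ih
    obtain ⟨a, b, hab⟩ := hy
    refine ⟨y + 5 * 10 ^ (j + 2) * (-m * a), ?_, ?_⟩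
    · refine ⟨a, b + 5 * 10 ^ (j + 1) * m * a * a, ?_⟩
      linear_combination hab
    · refine ⟨m * b + 25 * 10 ^ j * m ^ 2 * a ^ 2, ?_⟩
      linear_combination hm - m * 10 ^ (j + 3) * hab

/-- a unit which is `1` modulo `1000` is the square of a unit -/
theorem unit_sq (j : ℕ) (h : 1000 ∣ 10 ^ (j + 3)) (u : (ZMod (10 ^ (j + 3)))ˣ)
    (hu : ZMod.unitsMap h u = 1) : ∃ v : (ZMod (10 ^ (j + 3)))ˣ, v ^ 2 = u := by
  have : NeZero (10 ^ (j + 3)) := ⟨by positivity⟩
  obtain ⟨n, hn⟩ : ∃ n : ℤ, ((n : ℤ) : ZMod (10 ^ (j + 3))) = u := ZMod.intCast_surjective _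
  have h1 : (1000 : ℤ) ∣ n - 1 := by
    have e : ((ZMod.unitsMap h u : (ZMod 1000)ˣ) : ZMod 1000) = 1 := by rw [hu]; rfl
    rw [ZMod.unitsMap_def, Units.coe_map, ← hn] at e
    simp only [MonoidHom.coe_coe, map_intCast] at e
    have e2 : ((n - 1 : ℤ) : ZMod 1000) = 0 := by push_cast; rw [e]; ring
    exact (ZMod.intCast_zmod_eq_zero_iff_dvd _ _).1 e2
  obtain ⟨y, hy, hd⟩ := sq_mod n h1 j
  have hy2 : IsCoprime y ((10 ^ (j + 3) : ℕ) : ℤ) := by
    push_cast
    exact hy.pow_right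
  have hun : IsUnit ((y : ℤ) : ZMod (10 ^ (j + 3))) := by
    obtain ⟨a, b, hab⟩ := hy2
    have e := congrArg (Int.cast : ℤ → ZMod (10 ^ (j + 3))) hab
    rw [Int.cast_add, Int.cast_mul, Int.cast_mul, Int.cast_natCast, ZMod.natCast_self, mul_zero,
      add_zero, Int.cast_one] at e
    exact IsUnit.of_mul_eq_one_right _ e
  obtain ⟨v, hv⟩ := hun
  refine ⟨v, Units.ext ?_⟩
  rw [Units.val_pow_eq_pow_val, hv, ← hn]
  have e2 : ((y ^ 2 - n : ℤ) : ZMod (10 ^ (j + 3))) = 0 := by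
    rw [ZMod.intCast_zmod_eq_zero_iff_dvd]
    push_cast
    exact hd
  push_cast at e2
  exact sub_eq_zero.1 e2

/-- a real character modulo `10 ^ (j + 3)` is induced by a character modulo `1000` -/
theorem real_factors (j : ℕ) (χ : DirichletCharacter ℂ (10 ^ (j + 3))) (h2 : χ ^ 2 = 1) :
    χ.FactorsThrough 1000 := by
  have : NeZero (10 ^ (j + 3)) := ⟨by positivity⟩
  have h : 1000 ∣ 10 ^ (j + 3) := ⟨10 ^ j, by ring⟩
  rw [DirichletCharacter.factorsThrough_iff_ker_unitsMap h]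
  intro u hu
  obtain ⟨v, rfl⟩ := unit_sq j h u hu
  rw [MonoidHom.mem_ker]
  apply Units.ext
  rw [MulChar.coe_toUnitHom, Units.val_one, Units.val_pow_eq_pow_val, map_pow]
  have e : (χ ^ 2) (v : ZMod (10 ^ (j + 3))) = (1 : DirichletCharacter ℂ (10 ^ (j + 3))) v := by rw [h2]
  rw [MulChar.pow_apply_coe, MulChar.one_apply_coe] at e
  exact e

/-- the nonprincipal characters modulo `1000` have no real zero close to one -/
theorem no_real_1000 : ∃ δ : ℝ, 0 < δ ∧ ∀ χ : DirichletCharacter ℂ 1000, χ ≠ 1 →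
    ∀ β : ℝ, 1 - δ < β → χ.LFunction β ≠ 0 := by
  have key : ∀ χ : DirichletCharacter ℂ 1000, ∃ δ : ℝ, 0 < δ ∧ (χ ≠ 1 →
      ∀ β : ℝ, 1 - δ < β → χ.LFunction β ≠ 0) := by
    intro χ
    by_cases hχ : χ = 1
    · exact ⟨1, one_pos, fun h => absurd hχ h⟩
    · have h1 : χ.LFunction (1 : ℂ) ≠ 0 := DirichletCharacter.LFunction_apply_one_ne_zero hχ
      have hc : Continuous fun β : ℝ => χ.LFunction (β : ℂ) :=
        (DirichletCharacter.differentiable_LFunction hχ).continuous.comp Complex.continuous_ofReal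
      have h3 : ∀ᶠ β : ℝ in nhds 1, χ.LFunction (β : ℂ) ≠ 0 := by
        apply hc.continuousAt.eventually_ne
        simpa using h1
      obtain ⟨δ, hδ, hb⟩ := Metric.eventually_nhds_iff.1 h3
      refine ⟨δ, hδ, fun _ β hβ => ?_⟩
      by_cases h4 : 1 ≤ β
      · exact DirichletCharacter.LFunction_ne_zero_of_one_le_re χ (Or.inl hχ) (by simpa using h4)
      · apply hb
        rw [Real.dist_eq, abs_lt]
        constructor <;> linarith
  choose δ hδ h using key
  have : Nonempty (DirichletCharacter ℂ 1000) := ⟨1⟩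
  obtain ⟨χ0, h0⟩ := Finite.exists_min δ
  exact ⟨δ χ0, hδ χ0, fun χ hχ β hβ => h χ hχ β (by linarith [h0 χ])⟩

/-- real characters modulo powers of ten have no real zero close to one -/
theorem no_real : ∃ δ : ℝ, 0 < δ ∧ ∀ (j : ℕ) [NeZero (10 ^ j)], ∀ χ : DirichletCharacter ℂ (10 ^ j),
    χ ≠ 1 → χ ^ 2 = 1 → ∀ β : ℝ, 1 - δ < β → χ.LFunction β ≠ 0 := by
  obtain ⟨δ, hδ, h⟩ := no_real_1000
  refine ⟨δ, hδ, fun j _ χ hχ h2 β hβ h0 => ?_⟩
  by_cases hj : j ≤ 3
  · have hd : 10 ^ j ∣ 1000 := by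
      have : (1000 : ℕ) = 10 ^ 3 := by norm_num
      rw [this]
      exact pow_dvd_pow _ hj
    refine h (DirichletCharacter.changeLevel hd χ)
      (fun e => hχ ((DirichletCharacter.changeLevel_eq_one_iff hd).1 e)) β hβ ?_
    rw [DirichletCharacter.LFunction_changeLevel _ _ (Or.inl hχ), h0, zero_mul]
  · obtain ⟨i, rfl⟩ : ∃ i, j = i + 3 := ⟨j - 3, by omega⟩
    obtain ⟨hd, χ0, e⟩ := real_factors i χ h2
    have hχ0 : χ0 ≠ 1 := by
      intro e2
      apply hχ
      rw [e, e2, map_one]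
    refine h χ0 hχ0 β hβ ?_
    rw [e, DirichletCharacter.LFunction_changeLevel _ _ (Or.inl hχ0)] at h0
    have hp : ∏ p ∈ (10 ^ (i + 3)).primeFactors, (1 - χ0 ((p : ℕ) : ZMod 1000) * ((p : ℕ) : ℂ) ^ (-(β : ℂ))) = 1 := by
      apply Finset.prod_eq_one
      intro p hp
      have hp1 := Nat.prime_of_mem_primeFactors hp
      have hp2 : p ∣ 10 := hp1.dvd_of_dvd_pow (Nat.dvd_of_mem_primeFactors hp)
      have hnu : ¬ IsUnit ((p : ℕ) : ZMod 1000) := by
        rw [ZMod.isUnit_iff_coprime]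
        intro hc
        have h3 : p ∣ 1000 := hp2.trans (by norm_num)
        have h4 : p ∣ Nat.gcd p 1000 := Nat.dvd_gcd dvd_rfl h3
        rw [hc] at h4
        exact hp1.one_lt.ne' (Nat.dvd_one.1 h4)
      rw [MulChar.map_nonunit _ hnu]
      ring
    rw [hp, mul_one] at h0
    exact h0

open Pool.Agent.W66L in
open Pool.Agent.W66 in
open Pool.Agent.P8H13.GK in
open H370 H370.Loc in
/-- the classical region for one character without real zeros close to one -/
theorem core : ∃ c C ca : ℝ, 0 < c ∧ c ≤ 1 / 8 ∧ 0 < C ∧ 0 < ca ∧ ∀ l : ℝ, 4 ≤ l →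
    ∀ (q : ℕ) [NeZero q], (q : ℝ) ≤ Real.exp l → ∀ χ : DirichletCharacter ℂ q, χ ≠ 1 →
      (χ ^ 2 = 1 → ∀ β : ℝ, 1 - ca / l < β → χ.LFunction β ≠ 0) →
      ∀ z : ℂ, 1 - c / l ≤ z.re → z.re ≤ 2 → |z.im| ≤ Real.exp l →
        χ.LFunction z ≠ 0 ∧ ‖DX χ z‖ ≤ C * l ^ 2 := by
  obtain ⟨ca, hca, hca1⟩ : ∃ ca : ℝ, 0 < ca ∧ ca ≤ 1 / 100 := ⟨1 / 100, by norm_num, le_rfl⟩
  obtain ⟨cb, hcb, hcb1, hcomp⟩ := zfl
  obtain ⟨cz, hcz, hZ⟩ := t_ZFR Pool.Agent.Y568.FK.t_LD
  obtain ⟨K0, hK0, hball⟩ := LF_const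
  set c := min ca (min (cb / 3) (cz / 3)) / 2 with hc
  have hc0 : 0 < c := by positivity
  have hcca : 2 * c ≤ ca := by rw [hc]; linarith [min_le_left ca (min (cb / 3) (cz / 3))]
  have hccb : 2 * c ≤ cb / 3 := by
    rw [hc]; linarith [min_le_right ca (min (cb / 3) (cz / 3)), min_le_left (cb / 3) (cz / 3)]
  have hccz : 2 * c ≤ cz / 3 := by
    rw [hc]; linarith [min_le_right ca (min (cb / 3) (cz / 3)), min_le_right (cb / 3) (cz / 3)]
  refine ⟨c, 3 * K0 + 3 * K0 / c, ca, hc0, by linarith, by positivity, hca,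
    fun l hl4 q _ hq χ hχ hgood z hz hz2 him => ?_⟩
  have hl0 : 0 < l := by linarith
  have hq1 : (1 : ℝ) ≤ q := by exact_mod_cast NeZero.one_le
  have hel : (5 : ℝ) ≤ Real.exp l := by linarith [Real.add_one_le_exp l]
  have hlogq : Real.log q ≤ l := by
    rw [Real.log_le_iff_le_exp (by linarith)]; exact hq
  have hlqb : ∀ t : ℝ, |t| ≤ Real.exp l + 2 → lq q t ≤ 3 * l := by
    intro t ht
    unfold lq ell
    have h1 : Real.log (|t| + 3) ≤ 2 * l := by
      rw [Real.log_le_iff_le_exp (by positivity)]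
      calc |t| + 3 ≤ Real.exp l + 5 := by linarith
        _ ≤ Real.exp l * Real.exp l := by nlinarith
        _ = _ := by rw [← Real.exp_add]; congr 1; ring
    linarith
  -- the zeros
  have hzero : ∀ ρ : ℂ, |ρ.im| ≤ Real.exp l + 2 → χ.LFunction ρ = 0 → ρ.re ≤ 1 - 2 * c / l := by
    intro ρ hρ h0
    by_cases h2 : χ ^ 2 = 1
    · by_contra hcon
      push Not at hcon
      have hT : (2 : ℝ) ≤ Real.exp (2 * l) := by linarith [Real.add_one_le_exp (2 * l)]
      obtain ⟨β, _, hβ⟩ := hZ q χ h2 hχ (Real.exp (2 * l)) hT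
      have hlog : Real.log (q * Real.exp (2 * l)) ≤ 3 * l := by
        rw [Real.log_mul (by positivity) (Real.exp_pos _).ne', Real.log_exp]
        linarith
      have hlog0 : 0 < Real.log (q * Real.exp (2 * l)) := Real.log_pos (by nlinarith)
      have h3 : 2 * c / l ≤ cz / Real.log (q * Real.exp (2 * l)) := by
        calc 2 * c / l ≤ (cz / 3) / l := div_le_div_of_nonneg_right hccz hl0.le
          _ = cz / (3 * l) := by rw [div_div]
          _ ≤ _ := div_le_div_of_nonneg_left hcz.le hlog0 hlog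
      have h4 := (hβ ρ (by linarith) (by
        refine hρ.trans ?_
        have : Real.exp (2 * l) = Real.exp l * Real.exp l := by rw [← Real.exp_add]; congr 1; ring
        rw [this]; nlinarith) h0).1
      rw [h4] at h0 hcon
      rw [Complex.ofReal_re] at hcon
      apply hgood h2 β _ h0
      have : 2 * c / l ≤ ca / l := div_le_div_of_nonneg_right hcca hl0.le
      linarith
    · have h1 := hcomp q χ h2 ρ h0
      have h3 := hlqb _ hρ
      have h4 := one_le_lq q ρ.im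
      have h5 : 2 * c / l ≤ cb / lq q ρ.im := by
        calc 2 * c / l ≤ (cb / 3) / l := div_le_div_of_nonneg_right hccb hl0.le
          _ = cb / (3 * l) := by rw [div_div]
          _ ≤ _ := div_le_div_of_nonneg_left hcb.le (by linarith) h3
      linarith
  set t := z.im with ht
  have hell := one_le_lq q t
  have hell0 : 0 < lq q t := by linarith
  have hlt := hlqb t (by linarith)
  obtain ⟨M, hM1, hMb, hbd2, hbd⟩ := hball q χ hχ t
  have hcn : χ.LFunction ⟨2, t⟩ ≠ 0 := LF_ne_zero hχ (by norm_num)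
  have hcb' : ‖χ.LFunction ⟨2, t⟩‖ ≤ M := hMb _ (mem_closedBall_self (by norm_num))
  have hcl : c / l ≤ 1 / 8 := by
    refine (div_le_self hc0.le (by linarith)).trans (by linarith)
  have hzb : z ∈ closedBall (⟨2, t⟩ : ℂ) (9 / 8) := by
    rw [mem_closedBall, dist_eq_norm]
    have e : z - ⟨2, t⟩ = ((z.re - 2 : ℝ) : ℂ) := by
      apply Complex.ext <;> simp [ht]
    rw [e, Complex.norm_real, Real.norm_eq_abs, abs_le]
    constructor <;> linarith
  have hdist : ∀ ρ ∈ closedBall (⟨2, t⟩ : ℂ) (3 / 2), χ.LFunction ρ = 0 → c / l ≤ ‖z - ρ‖ := by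
    intro ρ hρ h0
    rw [mem_closedBall, dist_eq_norm] at hρ
    have h2 := (Complex.abs_im_le_norm (ρ - ⟨2, t⟩)).trans hρ
    simp only [sub_im] at h2
    have h3 : |ρ.im| ≤ Real.exp l + 2 := by
      have := abs_sub_abs_le_abs_sub ρ.im t
      linarith
    have h1 := hzero ρ h3 h0
    refine le_trans ?_ ((le_abs_self _).trans (Complex.abs_re_le_norm (z - ρ)))
    rw [sub_re]
    have h7 : 2 * c / l = 2 * (c / l) := by ring
    rw [h7] at h1
    linarith
  obtain ⟨h1, h2⟩ := landau (f := χ.LFunction) (c := ⟨2, t⟩) (r := 3 / 2) (r1 := 11 / 8)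
    (r2 := 9 / 8) (R := 7 / 4) (M := M) (by norm_num) (by norm_num) (by norm_num) (by norm_num)
    (by norm_num) hM1 hcb' (fun z _ => (DirichletCharacter.differentiable_LFunction hχ).analyticAt z)
    hcn hMb z hzb (c / l) (by positivity) hdist
  refine ⟨h1, h2.trans ?_⟩
  have hb1 : Real.log (M / ‖χ.LFunction ⟨2, t⟩‖) / Real.log (7 / 4 / (3 / 2)) / (c / l) ≤ 3 * K0 / c * l ^ 2 := by
    calc _ ≤ (K0 * lq q t) / (c / l) := by gcongr
      _ ≤ (K0 * (3 * l)) / (c / l) := by gcongr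
      _ = _ := by field_simp
  have hb2 : K0 * lq q t ≤ 3 * K0 * l ^ 2 := by
    have h3 : K0 * lq q t ≤ K0 * (3 * l) := mul_le_mul_of_nonneg_left hlt hK0.le
    have h4 : K0 * l ≤ K0 * l ^ 2 := mul_le_mul_of_nonneg_left (by nlinarith) hK0.le
    linarith
  calc _ ≤ 3 * K0 * l ^ 2 + 3 * K0 / c * l ^ 2 := by linarith
    _ = _ := by ring


/-- the classical region for all characters modulo powers of ten -/
theorem reg : Pool.Agent.P8H18.RR.S_REG10 := by
  obtain ⟨δ, hδ, hreal⟩ := no_real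
  obtain ⟨c, C, ca, hc, hc8, hC, hca, h⟩ := core
  refine ⟨c, C, max 4 (ca / δ), hc, hc8, hC, le_max_left _ _, fun l hl j _ hq χ hχ z hz hz2 him => ?_⟩
  have hl4 : 4 ≤ l := (le_max_left _ _).trans hl
  have hlδ : ca / l ≤ δ := by
    have h1 : ca / δ ≤ l := (le_max_right _ _).trans hl
    rw [div_le_iff₀ hδ] at h1
    rw [div_le_iff₀ (by linarith)]
    linarith
  exact h l hl4 (10 ^ j) (by push_cast; exact hq) χ hχ
    (fun h2 β hβ => hreal j χ hχ h2 β (by linarith)) z hz hz2 him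

end Pool.Agent.P8H73.RR
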